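import Pool.Agent.TH456.TM.E
import Pool.Agent.TH456.TM.Near

/-!
# Near algebraic relations between `e` and an arbitrary complex number: explicit exponents
(the proof is the one of `Pool.Agent.TH456.TM.Near`, with the exponent carried along)
-/

set_option autoImplicit false

namespace Pool.Agent.Y920.NearE

open Polynomial Finset
open Pool.Agent.TH456.TM
open Pool.Agent.TH647.NR (resultant_ne_zero_of_irreducible norm_resultant_le resultant_bounds count_of_gap)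

/-- two different irreducible polynomials of positive degree in `y` are not both small at `(x, t)` -/
theorem core_posE (x : ℂ) (D : ℕ) (hD : 1 ≤ D) (r c : ℝ) (hr0 : 0 ≤ r) (hc : 0 < c)
    (hm : ∀ P : ℤ[X], P ≠ 0 → P.natDegree ≤ 2 * D * D →
      ∀ H : ℝ, 1 ≤ H → (∀ j, |(P.coeff j : ℝ)| ≤ H) → c ≤ H ^ r * ‖aeval x P‖)
    (κ : ℝ) (hκE : κ = 2 * D * r + 2 * D) : ∀ T : ℝ, 1 ≤ T →
    ∃ C : ℝ, 0 < C ∧ ∀ t : ℂ, ‖t‖ ≤ T → ∀ P ∈ IR D, ∀ Q ∈ IR D, 0 < P.natDegree → 0 < Q.natDegree →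
      P ≠ Q → ∀ H : ℝ, (hgt P : ℝ) ≤ H → (hgt Q : ℝ) ≤ H → C * H ^ (-κ) ≤ max ‖vl x t P‖ ‖vl x t Q‖ := by
  have hDR : (1 : ℝ) ≤ D := by exact_mod_cast hD
  intro T hT
  obtain ⟨A, hA⟩ : ∃ A : ℝ, A = (D + 1) * (max 1 ‖x‖) ^ D := ⟨_, rfl⟩
  have hA1 : 1 ≤ A := by
    rw [hA]
    have : (1 : ℝ) ≤ (max 1 ‖x‖) ^ D := one_le_pow₀ (le_max_left _ _)
    nlinarith
  obtain ⟨K₁, hK₁⟩ : ∃ K₁ : ℝ, K₁ = (2 * D) * T ^ (2 * D) * ((2 * D).factorial * A ^ (2 * D)) :=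
    ⟨_, rfl⟩
  have hK₁0 : 0 < K₁ := by rw [hK₁]; positivity
  obtain ⟨K₂, hK₂⟩ : ∃ K₂ : ℝ, K₂ = (2 * D).factorial * ((D : ℝ) + 1) ^ (2 * D) := ⟨_, rfl⟩
  have hK₂1 : 1 ≤ K₂ := by
    rw [hK₂]
    have h1 : (1 : ℝ) ≤ (2 * D).factorial := by exact_mod_cast Nat.factorial_pos _
    have h2 : (1 : ℝ) ≤ ((D : ℝ) + 1) ^ (2 * D) := one_le_pow₀ (by linarith)
    nlinarith
  refine ⟨c / (K₁ * K₂ ^ r), by positivity, ?_⟩
  rintro t htT P ⟨hP1, hP3, hP4, hP5⟩ Q ⟨hQ1, hQ3, hQ4, hQ5⟩ hP2 hQ2 hne H hPH hQH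
  have hH1 : 1 ≤ H := by
    have : (1 : ℝ) ≤ hgt P := by exact_mod_cast hgt_pos P hP1.ne_zero
    linarith
  have hH0 : 0 < H := by linarith
  obtain ⟨ε, hε⟩ : ∃ ε : ℝ, ε = max ‖vl x t P‖ ‖vl x t Q‖ := ⟨_, rfl⟩
  have hε0 : 0 ≤ ε := by rw [hε]; exact (norm_nonneg _).trans (le_max_left _ _)
  rw [← hε]
  obtain ⟨m, hm'⟩ : ∃ m, m = P.natDegree := ⟨_, rfl⟩
  obtain ⟨n, hn'⟩ : ∃ n, n = Q.natDegree := ⟨_, rfl⟩
  have hN : m + n ≤ 2 * D := by omega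
  have hN0 : 0 < m + n := by omega
  obtain ⟨R, hR⟩ : ∃ R, R = resultant P Q m n := ⟨_, rfl⟩
  have hR0 : R ≠ 0 := by
    rw [hR, hm', hn']
    exact resultant_ne_zero_of_irreducible P Q hP1 hQ1 hP2 hQ2 (not_assoc P Q hP5 hQ5 hne)
  -- coefficients
  have hcP : ∀ j k, |(((P.coeff j).coeff k : ℤ) : ℝ)| ≤ H := by
    intro j k
    refine le_trans ?_ hPH
    rw [← Int.cast_abs, Int.abs_eq_natAbs]
    exact_mod_cast le_hgt P j k
  have hcQ : ∀ j k, |(((Q.coeff j).coeff k : ℤ) : ℝ)| ≤ H := by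
    intro j k
    refine le_trans ?_ hQH
    rw [← Int.cast_abs, Int.abs_eq_natAbs]
    exact_mod_cast le_hgt Q j k
  -- upper bound
  have hup : ‖σx x R‖ ≤ K₁ * H ^ (2 * D) * ε := by
    have hB : 1 ≤ A * H := by nlinarith
    have h3 := norm_resultant_le (P.map (σx x)) (Q.map (σx x)) m n
      (natDegree_map_le.trans hm'.ge) (natDegree_map_le.trans hn'.ge) hN0 (A * H) T
      ε hB
      (fun i => by
        rw [coeff_map, hA]
        exact σx_coeff x D _ H (hP4 i) (hcP i))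
      (fun i => by
        rw [coeff_map, hA]
        exact σx_coeff x D _ H (hQ4 i) (hcQ i)) t hT htT (by rw [hε]; exact le_max_left _ _)
      (by rw [hε]; exact le_max_right _ _)
    rw [resultant_map_map, ← hR] at h3
    refine h3.trans ?_
    have hNR : ((m : ℝ) + n) ≤ 2 * D := by exact_mod_cast hN
    have h4 : T ^ (m + n) ≤ T ^ (2 * D) := pow_le_pow_right₀ hT hN
    have h5 : (((m + n).factorial : ℕ) : ℝ) ≤ (2 * D).factorial := by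
      exact_mod_cast Nat.factorial_le hN
    have h6 : (A * H) ^ (m + n) ≤ (A * H) ^ (2 * D) := pow_le_pow_right₀ hB hN
    calc ((m : ℝ) + n) * (T ^ (m + n) * ε) * ((m + n).factorial * (A * H) ^ (m + n))
        ≤ (2 * D) * (T ^ (2 * D) * ε) * ((2 * D).factorial * (A * H) ^ (2 * D)) := by
          gcongr
      _ = _ := by
          rw [hK₁, mul_pow]
          ring
  -- lower bound
  have hlow : c ≤ (K₂ * H ^ (2 * D)) ^ r * ‖σx x R‖ := by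
    obtain ⟨h', hh'1, hh'2, hh'3⟩ : ∃ h' : ℕ, (h' : ℝ) ≤ H ∧ hgt P ≤ h' ∧ hgt Q ≤ h' :=
      ⟨max (hgt P) (hgt Q), by push_cast; exact max_le hPH hQH, le_max_left _ _, le_max_right _ _⟩
    obtain ⟨b1, b2⟩ := resultant_bounds P Q m n D (h' : ℤ) (by positivity) hP4 hQ4
      (fun j k => by
        rw [Int.abs_eq_natAbs]
        exact_mod_cast (le_hgt P j k).trans hh'2)
      (fun j k => by
        rw [Int.abs_eq_natAbs]
        exact_mod_cast (le_hgt Q j k).trans hh'3)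
    rw [← hR] at b1 b2
    have h3 : ∀ k, |(R.coeff k : ℝ)| ≤ K₂ * H ^ (2 * D) := by
      intro k
      have h4 := b2 k
      have h5 : |(R.coeff k : ℝ)| ≤ (m + n).factorial * (((D : ℝ) + 1) * h') ^ (m + n) := by
        exact_mod_cast h4
      refine h5.trans ?_
      have h6 : (((m + n).factorial : ℕ) : ℝ) ≤ (2 * D).factorial := by
        exact_mod_cast Nat.factorial_le hN
      have h8 : (1 : ℝ) ≤ ((D : ℝ) + 1) * H := by nlinarith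
      have h7 : (((D : ℝ) + 1) * H) ^ (m + n) ≤ (((D : ℝ) + 1) * H) ^ (2 * D) :=
        pow_le_pow_right₀ h8 hN
      calc ((m + n).factorial : ℝ) * (((D : ℝ) + 1) * h') ^ (m + n)
          ≤ (m + n).factorial * (((D : ℝ) + 1) * H) ^ (m + n) := by gcongr
        _ ≤ (2 * D).factorial * (((D : ℝ) + 1) * H) ^ (2 * D) := by gcongr
        _ = _ := by rw [hK₂, mul_pow]; ring
    have h4 : 1 ≤ K₂ * H ^ (2 * D) := by
      have : 1 ≤ H ^ (2 * D) := one_le_pow₀ hH1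
      nlinarith
    exact hm R hR0 (b1.trans (Nat.mul_le_mul_right _ hN)) (K₂ * H ^ (2 * D)) h4 h3
  -- conclusion
  have hpowr : (K₂ * H ^ (2 * D)) ^ r = K₂ ^ r * H ^ ((2 * D : ℝ) * r) := by
    rw [Real.mul_rpow (by linarith) (by positivity), ← Real.rpow_natCast H (2 * D),
      ← Real.rpow_mul hH0.le]
    push_cast
    rfl
  have h2D : H ^ (2 * D) = H ^ (2 * D : ℝ) := by
    rw [← Real.rpow_natCast H (2 * D)]
    push_cast
    rfl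
  have hfin : c ≤ (K₁ * K₂ ^ r) * (H ^ κ * ε) := by
    calc c ≤ (K₂ * H ^ (2 * D)) ^ r * ‖σx x R‖ := hlow
      _ ≤ (K₂ * H ^ (2 * D)) ^ r * (K₁ * H ^ (2 * D) * ε) := by gcongr
      _ = (K₁ * K₂ ^ r) * (H ^ κ * ε) := by
          rw [hpowr, h2D, hκE, Real.rpow_add hH0]
          ring
  have hKK : 0 < K₁ * K₂ ^ r := by positivity
  have h9 : H ^ (-κ) * H ^ κ = 1 := by rw [← Real.rpow_add hH0]; simp
  rw [div_mul_eq_mul_div, div_le_iff₀ hKK]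
  calc c * H ^ (-κ) ≤ ((K₁ * K₂ ^ r) * (H ^ κ * ε)) * H ^ (-κ) := by
        have : 0 ≤ H ^ (-κ) := by positivity
        gcongr
    _ = ε * (K₁ * K₂ ^ r) * (H ^ (-κ) * H ^ κ) := by ring
    _ = _ := by rw [h9, mul_one]

/-- a polynomial which does not contain `y` is not small at `(x, t)` -/
theorem core_zeroE (x : ℂ) (D : ℕ) (κ c : ℝ) (hc : 0 < c)
    (hm : ∀ P : ℤ[X], P ≠ 0 → P.natDegree ≤ D →
      ∀ H : ℝ, 1 ≤ H → (∀ j, |(P.coeff j : ℝ)| ≤ H) → c ≤ H ^ κ * ‖aeval x P‖) :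
    ∃ C : ℝ, 0 < C ∧ ∀ t : ℂ, ∀ P ∈ IR D, P.natDegree = 0 →
      ∀ H : ℝ, (hgt P : ℝ) ≤ H → C * H ^ (-κ) ≤ ‖vl x t P‖ := by
  refine ⟨c, hc, ?_⟩
  rintro t P ⟨hP1, hP3, hP4, hP5⟩ hP0 H hPH
  have hH1 : 1 ≤ H := by
    have : (1 : ℝ) ≤ hgt P := by exact_mod_cast hgt_pos P hP1.ne_zero
    linarith
  have hH0 : 0 < H := by linarith
  have hPC : P = C (P.coeff 0) := eq_C_of_natDegree_eq_zero hP0
  have h1 := hm (P.coeff 0) (fun h => hP1.ne_zero (by rw [hPC, h, C_0])) (hP4 0) H hH1 (fun k => by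
    refine le_trans ?_ hPH
    rw [← Int.cast_abs, Int.abs_eq_natAbs]
    exact_mod_cast le_hgt P 0 k)
  have h2 : vl x t P = aeval x (P.coeff 0) := by
    unfold vl
    rw [hPC, map_C, eval_C, coeff_C_zero]
    rfl
  rw [h2]
  have h9 : H ^ (-κ) * H ^ κ = 1 := by rw [← Real.rpow_add hH0]; simp
  calc c * H ^ (-κ) ≤ (H ^ κ * ‖aeval x (P.coeff 0)‖) * H ^ (-κ) := by gcongr
    _ = ‖aeval x (P.coeff 0)‖ * (H ^ (-κ) * H ^ κ) := by ring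
    _ = _ := by rw [h9, mul_one]

/-- two different irreducible polynomials are not both small at `(x, t)`, with explicit exponent -/
theorem coreE (x : ℂ) (D : ℕ) (hD : 1 ≤ D) (r : ℝ) (hr0 : 0 ≤ r)
    (hm : ∃ c : ℝ, 0 < c ∧ ∀ P : ℤ[X], P ≠ 0 → P.natDegree ≤ 2 * D * D →
      ∀ H : ℝ, 1 ≤ H → (∀ j, |(P.coeff j : ℝ)| ≤ H) → c ≤ H ^ r * ‖aeval x P‖) :
    ∀ T : ℝ, ∃ C : ℝ, 0 < C ∧ ∀ t : ℂ, ‖t‖ ≤ T → ∀ P ∈ IR D, ∀ Q ∈ IR D,
      P ≠ Q → ∀ H : ℝ, (hgt P : ℝ) ≤ H → (hgt Q : ℝ) ≤ H →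
        C * H ^ (-(2 * D * r + 2 * D)) ≤ max ‖vl x t P‖ ‖vl x t Q‖ := by
  obtain ⟨c, hc, hm⟩ := hm
  obtain ⟨κ, hκE⟩ : ∃ κ : ℝ, κ = 2 * D * r + 2 * D := ⟨_, rfl⟩
  have hDR : (1 : ℝ) ≤ D := by exact_mod_cast hD
  have hrκ : r ≤ κ := by rw [hκE]; nlinarith
  obtain ⟨C₂, hC₂, h2⟩ := core_zeroE x D r c hc (fun P hP hPD => hm P hP (by nlinarith))
  intro T
  obtain ⟨C₁, hC₁, h1⟩ := core_posE x D hD r c hr0 hc hm κ hκE (max 1 T) (le_max_left _ _)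
  refine ⟨min C₁ C₂, lt_min hC₁ hC₂, ?_⟩
  intro t ht P hP Q hQ hne H hPH hQH
  rw [← hκE]
  have hH1 : 1 ≤ H := by
    have : (1 : ℝ) ≤ hgt P := by exact_mod_cast hgt_pos P hP.1.ne_zero
    linarith
  have a2 : H ^ (-κ) ≤ H ^ (-r) := Real.rpow_le_rpow_of_exponent_le hH1 (by linarith)
  have hpos : 0 < H ^ (-κ) := by positivity
  have b1 : min C₁ C₂ * H ^ (-κ) ≤ C₁ * H ^ (-κ) := by
    have := min_le_left C₁ C₂
    gcongr
  have b2 : min C₁ C₂ * H ^ (-κ) ≤ C₂ * H ^ (-r) := by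
    have := min_le_right C₁ C₂
    gcongr
  by_cases hP0 : P.natDegree = 0
  · exact b2.trans ((h2 t P hP hP0 H hPH).trans (le_max_left _ _))
  by_cases hQ0 : Q.natDegree = 0
  · exact b2.trans ((h2 t Q hQ hQ0 H hQH).trans (le_max_right _ _))
  exact b1.trans (h1 t (ht.trans (le_max_right _ _)) P hP Q hQ (by omega) (by omega) hne H hPH hQH)

/-- the number `e`: exponent `4 D ^ 3 + 2 D + δ` -/
theorem core_e (D : ℕ) (hD : 1 ≤ D) (δ : ℝ) (hδ : 0 < δ) :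
    ∀ T : ℝ, ∃ C : ℝ, 0 < C ∧ ∀ t : ℂ, ‖t‖ ≤ T → ∀ P ∈ IR D, ∀ Q ∈ IR D,
      P ≠ Q → ∀ H : ℝ, (hgt P : ℝ) ≤ H → (hgt Q : ℝ) ≤ H →
        C * H ^ (-(4 * D ^ 3 + 2 * D + δ : ℝ)) ≤
          max ‖vl ((Real.exp 1 : ℝ) : ℂ) t P‖ ‖vl ((Real.exp 1 : ℝ) : ℂ) t Q‖ := by
  have hDR : (1 : ℝ) ≤ D := by exact_mod_cast hD
  have h := coreE ((Real.exp 1 : ℝ) : ℂ) D hD (2 * D * D + δ / (2 * D)) (by positivity) (by
    obtain ⟨c, hc, h⟩ := Pool.Agent.W472.AC.e_measP (2 * D * D) (δ / (2 * D)) (by positivity)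
    refine ⟨c, hc, fun P hP hPD H hH hPH => ?_⟩
    rw [← abs_aeval]
    have := h P hP hPD H hH hPH
    simpa using this)
  have e : 2 * (D : ℝ) * (2 * D * D + δ / (2 * D)) + 2 * D = 4 * D ^ 3 + 2 * D + δ := by
    field_simp
    ring
  rw [e] at h
  exact h

end Pool.Agent.Y920.NearE
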