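import Pool.Agent.Results.MP_a2f59b_nt.SixIrrational
import Pool.Agent.W252.BWFinal
import Pool.Agent.TH577.RF.Real

/-!
# The nine numbers: consequences of the theorem of Brownawell and Waldschmidt and of Baker's theorem
-/

set_option autoImplicit false

namespace Pool.Agent.Y920.NineBW

open Real Pool.Agent.H301R2.Nine Pool.Agent.H301R2.SSE
open Pool.Agent.W243.TD Pool.Agent.TH577.RF

theorem pi_tr : Transcendental ℚ ((Real.pi : ℝ) : ℂ) :=
  Pool.Agent.H340R2.LW.transcendental_pi_complex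

/-- **Brownawell–Waldschmidt.** If `e ^ (π²)` is algebraic then `e` is not algebraic over
`ℚ(π)`. -/
theorem bw8 (h : IsAlgebraic ℚ (Real.exp (π * π)))
    (hal : Al ((π : ℝ) : ℂ) ((Real.exp 1 : ℝ) : ℂ)) : False := by
  have hI : Al ((π : ℝ) : ℂ) Complex.I := al_of_alg algI
  have hpi : Al ((π : ℝ) : ℂ) ((π : ℝ) : ℂ) := al_self _
  have hpiI : Al ((π : ℝ) : ℂ) (((π : ℝ) : ℂ) * Complex.I) := hpi.mul hI
  have h1 : Al ((π : ℝ) : ℂ) 1 := isAlgebraic_one
  have hlin : LinearIndependent ℚ ![(1 : ℂ), ((π : ℝ) : ℂ) * Complex.I] := by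
    rw [LinearIndependent.pair_iff]
    intro s u hst
    have hre := congrArg Complex.re hst
    have him := congrArg Complex.im hst
    simp only [Rat.smul_def, Complex.add_re, mul_one,
      Complex.add_im, Complex.mul_re, Complex.mul_im, Complex.ratCast_re, Complex.ratCast_im,
      Complex.ofReal_re, Complex.ofReal_im, Complex.I_re, Complex.I_im, Complex.zero_re,
      Complex.zero_im, mul_zero, zero_mul, sub_zero, add_zero, mul_one, zero_add, sub_self]
      at hre him
    constructor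
    · exact_mod_cast hre
    · have := (mul_eq_zero.mp him).resolve_right Real.pi_ne_zero
      exact_mod_cast this
  have hlin' : LinearIndependent ℚ ![((π : ℝ) : ℂ) * Complex.I, (1 : ℂ)] := by
    rw [LinearIndependent.pair_iff] at hlin ⊢
    intro s u hst
    obtain ⟨a, b⟩ := hlin u s (by rw [add_comm]; exact hst)
    exact ⟨b, a⟩
  refine Pool.Agent.W252.bw pi_tr ![(1 : ℂ), ((π : ℝ) : ℂ) * Complex.I]
    ![((π : ℝ) : ℂ) * Complex.I, (1 : ℂ)] hlin hlin' ?_ ?_ ?_ ?_
  · intro i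
    fin_cases i
    · exact h1
    · exact hpiI
  · intro i
    fin_cases i
    · exact hpiI
    · exact h1
  · intro i
    fin_cases i
    · show IsAlgebraic ℚ (Complex.exp (1 * (((π : ℝ) : ℂ) * Complex.I)))
      rw [one_mul, Complex.exp_pi_mul_I]
      exact isAlgebraic_one.neg
    · show IsAlgebraic ℚ (Complex.exp ((((π : ℝ) : ℂ) * Complex.I) * (((π : ℝ) : ℂ) * Complex.I)))
      have e1 : (((π : ℝ) : ℂ) * Complex.I) * (((π : ℝ) : ℂ) * Complex.I) =
          -((π * π : ℝ) : ℂ) := by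
        have := Complex.I_mul_I
        push_cast
        linear_combination ((π : ℂ) * (π : ℂ)) * this
      rw [e1, Complex.exp_neg, ← Complex.ofReal_exp]
      exact (toC h).inv
  · intro i
    fin_cases i
    · show Al ((π : ℝ) : ℂ) (Complex.exp (1 * 1))
      rw [one_mul]
      simpa using hal
    · show Al ((π : ℝ) : ℂ) (Complex.exp ((((π : ℝ) : ℂ) * Complex.I) * 1))
      rw [mul_one, Complex.exp_pi_mul_I]
      exact h1.neg

/-- If `e ^ (π²)` is algebraic then `π` and `e` are algebraically independent. -/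
theorem indep_of_pi_sq (h : IsAlgebraic ℚ (Real.exp (π * π))) :
    AlgebraicIndependent ℚ ![π, Real.exp 1] := by
  by_contra hcon
  exact bw8 h (real_al pi_tr hcon)

theorem alR {x : ℝ} (h : IsAlgebraic ℚ x) : Al ((π : ℝ) : ℂ) (x : ℂ) := al_of_alg (toC h)

theorem p08 (h : IsAlgebraic ℚ (Real.exp (π * π))) (h0 : IsAlgebraic ℚ (π + Real.exp 1)) :
    False := by
  refine bw8 h ?_
  have h1 := (alR h0).sub (al_self ((π : ℝ) : ℂ))
  have e : ((π + Real.exp 1 : ℝ) : ℂ) - ((π : ℝ) : ℂ) = ((Real.exp 1 : ℝ) : ℂ) := by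
    push_cast; ring
  rwa [e] at h1

theorem p18 (h : IsAlgebraic ℚ (Real.exp (π * π))) (h0 : IsAlgebraic ℚ (π - Real.exp 1)) :
    False := by
  refine bw8 h ?_
  have h1 := (al_self ((π : ℝ) : ℂ)).sub (alR h0)
  have e : ((π : ℝ) : ℂ) - ((π - Real.exp 1 : ℝ) : ℂ) = ((Real.exp 1 : ℝ) : ℂ) := by
    push_cast; ring
  rwa [e] at h1

theorem p28 (h : IsAlgebraic ℚ (Real.exp (π * π))) (h0 : IsAlgebraic ℚ (π * Real.exp 1)) :
    False := by
  refine bw8 h ?_
  have h1 := (alR h0).mul (al_self ((π : ℝ) : ℂ)).inv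
  have hp : (π : ℂ) ≠ 0 := by exact_mod_cast Real.pi_ne_zero
  have e : ((π * Real.exp 1 : ℝ) : ℂ) * ((π : ℝ) : ℂ)⁻¹ = ((Real.exp 1 : ℝ) : ℂ) := by
    rw [Complex.ofReal_mul]
    field_simp
  rwa [e] at h1

theorem p38 (h : IsAlgebraic ℚ (Real.exp (π * π))) (h0 : IsAlgebraic ℚ (π / Real.exp 1)) :
    False := by
  refine bw8 h ?_
  have h1 := (al_self ((π : ℝ) : ℂ)).mul (alR h0).inv
  have hp : (π : ℂ) ≠ 0 := by exact_mod_cast Real.pi_ne_zero
  have e : ((π : ℝ) : ℂ) * ((π / Real.exp 1 : ℝ) : ℂ)⁻¹ = ((Real.exp 1 : ℝ) : ℂ) := by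
    rw [Complex.ofReal_div, inv_div]
    field_simp
  rwa [e] at h1

/-- Gelfond–Schneider for real logarithms -/
theorem gs {l m c : ℝ} (hl : IsAlgebraic ℚ (Real.exp l)) (hm : IsAlgebraic ℚ (Real.exp m))
    (hc : IsAlgebraic ℚ c) (h : l = c * m) (hm0 : m ≠ 0) : ∃ r : ℚ, c = r := by
  by_contra hcon
  push Not at hcon
  have hω : LinearIndependent ℚ ![(l : ℂ), (m : ℂ)] := by
    rw [LinearIndependent.pair_iff]
    intro s t hst
    have h1 : (s : ℝ) * l + (t : ℝ) * m = 0 := by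
      have h2 : (s : ℂ) * (l : ℂ) + (t : ℂ) * (m : ℂ) = 0 := by
        simpa [Rat.smul_def] using hst
      exact_mod_cast h2
    rw [h] at h1
    have h3 : (s : ℝ) * c + t = 0 := by
      have : ((s : ℝ) * c + t) * m = 0 := by linear_combination h1
      exact (mul_eq_zero.mp this).resolve_right hm0
    by_cases hs : s = 0
    · subst hs
      refine ⟨rfl, ?_⟩
      simpa using h3
    · exfalso
      apply hcon (-t / s)
      have hs' : (s : ℝ) ≠ 0 := by exact_mod_cast hs
      push_cast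
      field_simp
      linear_combination h3
  obtain ⟨-, h3⟩ := Pool.Agent.H297R2.baker_inhom ![(l : ℂ), (m : ℂ)] (by
      intro i
      fin_cases i
      · show IsAlgebraic ℚ (Complex.exp (l : ℂ))
        rw [← Complex.ofReal_exp]; exact toC hl
      · show IsAlgebraic ℚ (Complex.exp (m : ℂ))
        rw [← Complex.ofReal_exp]; exact toC hm) hω 0 isAlgebraic_zero ![1, -(c : ℂ)] (by
      intro i
      fin_cases i
      · exact isAlgebraic_one
      · exact (toC hc).neg) (by
      rw [Fin.sum_univ_two]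
      simp only [Matrix.cons_val_zero, Matrix.cons_val_one]
      rw [h]
      push_cast
      ring)
  have h4 := h3 0
  simp only [Matrix.cons_val_zero] at h4
  exact one_ne_zero h4

/-- if `s` is algebraic and `π ^ s`, `π ^ √2` are algebraic then `s` is a rational multiple of `√2` -/
theorem mul_sqrt2 {s : ℝ} (hs : IsAlgebraic ℚ s) (h : IsAlgebraic ℚ (Real.exp (s * L)))
    (hE : IsAlgebraic ℚ (Real.exp (√2 * L))) : ∃ r : ℚ, s = r * √2 := by
  have h2 : (√2 : ℝ) ≠ 0 := by positivity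
  obtain ⟨r, hr⟩ := gs (l := s * L) (m := √2 * L) (c := s * (√2)⁻¹) h hE (hs.mul alg_sqrt2.inv)
    (by field_simp) (mul_ne_zero h2 L_pos.ne')
  refine ⟨r, ?_⟩
  rw [← hr]
  field_simp

/-- if `π / e`, `π ^ π`, `π ^ e` are algebraic then `π / e` is rational -/
theorem quot_rat (h : IsAlgebraic ℚ (π / Real.exp 1)) (hB : IsAlgebraic ℚ (Real.exp (π * L)))
    (hD : IsAlgebraic ℚ (Real.exp (Real.exp 1 * L))) : ∃ r : ℚ, π / Real.exp 1 = r := by
  refine gs hB hD h ?_ eLpos
  have := Real.exp_ne_zero 1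
  field_simp

end Pool.Agent.Y920.NineBW
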